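import Mathlib

namespace Pool.Agent.Results.MP_8fd2f5_al.SymmetricGroup
open Equiv Equiv.Perm MulAction

/-- `IsTau m r s σ`: the permutation `σ` of `ℤ` is the horizontal class transposition
`τ_{r(m),s(m)}`. -/
def IsTau (m r s : ℕ) (σ : Equiv.Perm ℤ) : Prop :=
  (∀ j : ℤ, σ (r + j * m) = s + j * m) ∧ (∀ j : ℤ, σ (s + j * m) = r + j * m) ∧
  ∀ x : ℤ, (¬ ∃ j : ℤ, x = r + j * m) → (¬ ∃ j : ℤ, x = s + j * m) → σ x = x

/-- The group `CT_m`, generated by all `τ_{r(m),s(m)}`, `0 ≤ r < s ≤ m - 1`. -/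
def CT (m : ℕ) : Subgroup (Equiv.Perm ℤ) :=
  Subgroup.closure {σ | ∃ r s : ℕ, r < s ∧ s < m ∧ IsTau m r s σ}

/-- The group `CT_(k)`, generated by `CT_2, ..., CT_k`. -/
def CTle (k : ℕ) : Subgroup (Equiv.Perm ℤ) :=
  Subgroup.closure {σ | ∃ m : ℕ, 2 ≤ m ∧ m ≤ k ∧ σ ∈ CT m}

/-- `lcm(2, 3, ..., k)`. -/
def L (k : ℕ) : ℕ := (Finset.Icc 2 k).lcm id

section Phi

/-- A permutation of the residues modulo `m` acts on `ℤ` by translations of classes. -/
def Phi (m : ℕ) [NeZero m] : Perm (Fin m) →* Perm ℤ where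
  toFun σ := (Int.divModEquiv m).symm.permCongr (Equiv.prodCongrRight fun _ => σ)
  map_one' := by
    refine Equiv.ext fun x => ?_
    rw [Equiv.permCongr_apply]
    simp only [Equiv.symm_symm]
    exact (Int.divModEquiv m).symm_apply_apply x
  map_mul' σ τ := by
    refine Equiv.ext fun x => ?_
    rw [Equiv.Perm.mul_apply, Equiv.permCongr_apply, Equiv.permCongr_apply,
      Equiv.permCongr_apply]
    simp only [Equiv.symm_symm, Equiv.apply_symm_apply]
    rfl

theorem Phi_apply (m : ℕ) [NeZero m] (σ : Perm (Fin m)) (q : ℤ) (i : Fin m) :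
    Phi m σ (q * m + i) = q * m + σ i := by
  have h : (Int.divModEquiv m) (q * m + i) = (q, i) := by
    have := (Int.divModEquiv m).apply_symm_apply (q, i)
    rw [Int.divModEquiv_symm_apply] at this
    exact this
  show (Int.divModEquiv m).symm.permCongr (Equiv.prodCongrRight fun _ => σ) (q * m + i) = _
  rw [Equiv.permCongr_apply]
  simp only [Equiv.symm_symm]
  rw [h]
  simp

theorem exists_rep (m : ℕ) [NeZero m] (x : ℤ) : ∃ (q : ℤ) (i : Fin m), x = q * m + i := by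
  refine ⟨((Int.divModEquiv m) x).1, ((Int.divModEquiv m) x).2, ?_⟩
  have := (Int.divModEquiv m).symm_apply_apply x
  rw [Int.divModEquiv_symm_apply] at this
  exact this.symm

theorem Phi_coe (m : ℕ) [NeZero m] (σ : Perm (Fin m)) (i : Fin m) :
    Phi m σ (i : ℤ) = (σ i : ℤ) := by
  have := Phi_apply m σ 0 i
  simpa using this

theorem Phi_injective (m : ℕ) [NeZero m] : Function.Injective (Phi m) := by
  intro σ τ h
  ext i
  have h1 := Phi_coe m σ i
  have h2 := Phi_coe m τ i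
  rw [h, h2] at h1
  exact_mod_cast h1.symm

/-- rep unique -/
theorem rep_unique (m : ℕ) [NeZero m] {q q' : ℤ} {i i' : Fin m}
    (h : q * m + (i : ℤ) = q' * m + i') : q = q' ∧ i = i' := by
  have := (Int.divModEquiv m).symm.injective (a₁ := (q, i)) (a₂ := (q', i'))
    (by rw [Int.divModEquiv_symm_apply, Int.divModEquiv_symm_apply]; exact h)
  exact ⟨congrArg Prod.fst this, congrArg Prod.snd this⟩

theorem isTau_Phi (m : ℕ) [NeZero m] (r s : Fin m) : IsTau m r s (Phi m (swap r s)) := by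
  refine ⟨fun j => ?_, fun j => ?_, fun x h1 h2 => ?_⟩
  · rw [add_comm, Phi_apply, swap_apply_left, add_comm]
  · rw [add_comm, Phi_apply, swap_apply_right, add_comm]
  · obtain ⟨q, i, rfl⟩ := exists_rep m x
    rw [Phi_apply, swap_apply_of_ne_of_ne]
    · rintro rfl; exact h1 ⟨q, by ring⟩
    · rintro rfl; exact h2 ⟨q, by ring⟩

theorem isTau_unique {m r s : ℕ} {σ τ : Perm ℤ} (h : IsTau m r s σ) (h' : IsTau m r s τ) :
    σ = τ := by
  ext x
  by_cases h1 : ∃ j : ℤ, x = r + j * m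
  · obtain ⟨j, rfl⟩ := h1; rw [h.1, h'.1]
  by_cases h2 : ∃ j : ℤ, x = s + j * m
  · obtain ⟨j, rfl⟩ := h2; rw [h.2.1, h'.2.1]
  rw [h.2.2 x h1 h2, h'.2.2 x h1 h2]

theorem CT_eq (m : ℕ) [NeZero m] : CT m = (Phi m).range := by
  apply le_antisymm
  · rw [CT, Subgroup.closure_le]
    rintro σ ⟨r, s, hrs, hs, h⟩
    refine ⟨swap ⟨r, by omega⟩ ⟨s, hs⟩, ?_⟩
    exact isTau_unique (isTau_Phi m ⟨r, by omega⟩ ⟨s, hs⟩) h
  · rw [MonoidHom.range_eq_map, ← Equiv.Perm.closure_isSwap, MonoidHom.map_closure,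
      Subgroup.closure_le]
    rintro _ ⟨σ, ⟨r, s, hrs, rfl⟩, rfl⟩
    apply Subgroup.subset_closure
    rcases lt_or_gt_of_ne hrs with h | h
    · exact ⟨r, s, h, s.2, isTau_Phi m r s⟩
    · refine ⟨s, r, h, r.2, ?_⟩
      rw [swap_comm]
      exact isTau_Phi m s r

end Phi

section Lift

variable {m N : ℕ}

theorem pos_of_dvd' [NeZero N] (h : m ∣ N) : 0 < m :=
  Nat.pos_of_dvd_of_pos h (Nat.pos_of_ne_zero (NeZero.ne N))

theorem lift_lt [NeZero N] (h : m ∣ N) {x i : ℕ} (hx : x < N) (hi : i < m) :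
    x / m * m + i < N := by
  obtain ⟨d, rfl⟩ := h
  have hm : 0 < m := pos_of_dvd' (N := m * d) (Dvd.intro d rfl)
  have h1 : x / m < d := Nat.div_lt_of_lt_mul hx
  calc x / m * m + i < x / m * m + m := by omega
    _ = (x / m + 1) * m := by ring
    _ ≤ d * m := Nat.mul_le_mul_right m h1
    _ = m * d := by ring

/-- The permutation of the residues modulo `N` induced by one of the residues modulo `m ∣ N`. -/
def lift [NeZero N] (h : m ∣ N) (σ : Perm (Fin m)) : Perm (Fin N) where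
  toFun x := ⟨x / m * m + σ ⟨x % m, Nat.mod_lt _ (pos_of_dvd' h)⟩,
    lift_lt h x.2 (σ ⟨x % m, Nat.mod_lt _ (pos_of_dvd' h)⟩).2⟩
  invFun x := ⟨x / m * m + σ.symm ⟨x % m, Nat.mod_lt _ (pos_of_dvd' h)⟩,
    lift_lt h x.2 (σ.symm ⟨x % m, Nat.mod_lt _ (pos_of_dvd' h)⟩).2⟩
  left_inv x := by
    have hm := pos_of_dvd' h
    ext
    simp only
    have h1 : ((x : ℕ) / m * m + (σ ⟨x % m, Nat.mod_lt _ hm⟩ : ℕ)) / m = x / m := by
      rw [Nat.add_comm, Nat.add_mul_div_right _ _ hm, Nat.div_eq_of_lt (Fin.is_lt _), Nat.zero_add]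
    have h2 : ((x : ℕ) / m * m + (σ ⟨x % m, Nat.mod_lt _ hm⟩ : ℕ)) % m =
        (σ ⟨x % m, Nat.mod_lt _ hm⟩ : ℕ) := by
      rw [Nat.add_comm, Nat.add_mul_mod_self_right, Nat.mod_eq_of_lt (Fin.is_lt _)]
    rw [h1]
    simp only [h2, Fin.eta, symm_apply_apply]
    exact Nat.div_add_mod' _ _
  right_inv x := by
    have hm := pos_of_dvd' h
    ext
    simp only
    have h1 : ((x : ℕ) / m * m + (σ.symm ⟨x % m, Nat.mod_lt _ hm⟩ : ℕ)) / m = x / m := by
      rw [Nat.add_comm, Nat.add_mul_div_right _ _ hm, Nat.div_eq_of_lt (Fin.is_lt _), Nat.zero_add]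
    have h2 : ((x : ℕ) / m * m + (σ.symm ⟨x % m, Nat.mod_lt _ hm⟩ : ℕ)) % m =
        (σ.symm ⟨x % m, Nat.mod_lt _ hm⟩ : ℕ) := by
      rw [Nat.add_comm, Nat.add_mul_mod_self_right, Nat.mod_eq_of_lt (Fin.is_lt _)]
    rw [h1]
    simp only [h2, Fin.eta, apply_symm_apply]
    exact Nat.div_add_mod' _ _

theorem lift_val [NeZero N] (h : m ∣ N) (σ : Perm (Fin m)) (x : Fin N) :
    (lift h σ x : ℕ) = x / m * m + σ ⟨x % m, Nat.mod_lt _ (pos_of_dvd' h)⟩ := rfl

theorem Phi_lift [NeZero N] [NeZero m] (h : m ∣ N) (σ : Perm (Fin m)) :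
    Phi N (lift h σ) = Phi m σ := by
  have hm := pos_of_dvd' h
  ext x
  obtain ⟨q, i, rfl⟩ := exists_rep N x
  rw [Phi_apply, lift_val]
  obtain ⟨d, hd⟩ := id h
  have hd' : (N : ℤ) = m * d := by exact_mod_cast hd
  have e : (q * (N : ℤ) + (i : ℕ) : ℤ) =
      (q * d + ((i : ℕ) / m : ℕ)) * (m : ℤ) + ((⟨(i : ℕ) % m, Nat.mod_lt _ hm⟩ : Fin m) : ℕ) := by
    have := Nat.div_add_mod' (i : ℕ) m
    have h2 : ((i : ℕ) : ℤ) = (((i : ℕ) / m : ℕ) : ℤ) * m + (((i : ℕ) % m : ℕ) : ℤ) := by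
      exact_mod_cast this.symm
    simp only
    rw [h2, hd']
    ring
  rw [e, Phi_apply, hd']
  push_cast
  ring

theorem range_le [NeZero N] [NeZero m] (h : m ∣ N) : (Phi m).range ≤ (Phi N).range := by
  rintro _ ⟨σ, rfl⟩
  exact ⟨lift h σ, Phi_lift h σ⟩

end Lift

section Prim

variable {N : ℕ} [NeZero N]

/-- swapping two residues mod `m` -/
theorem lift_swap_move {m : ℕ} (h : m ∣ N) (x y : Fin N) (hxy : (x : ℕ) / m = y / m) :
    lift h (swap ⟨x % m, Nat.mod_lt _ (pos_of_dvd' h)⟩ ⟨y % m, Nat.mod_lt _ (pos_of_dvd' h)⟩) x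
      = y := by
  ext
  rw [lift_val, swap_apply_left, hxy]
  exact Nat.div_add_mod' _ _

theorem lift_swap_fix {m : ℕ} (h : m ∣ N) (r s : Fin m) (x : Fin N)
    (h1 : (x : ℕ) % m ≠ r) (h2 : (x : ℕ) % m ≠ s) : lift h (swap r s) x = x := by
  ext
  rw [lift_val, swap_apply_of_ne_of_ne]
  · exact Nat.div_add_mod' _ _
  · intro e; exact h1 (congrArg Fin.val e)
  · intro e; exact h2 (congrArg Fin.val e)

theorem block_key {G : Subgroup (Perm (Fin N))} {B : Set (Fin N)} (hB : IsBlock G B)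
    {g : Perm (Fin N)} (hg : g ∈ G) {z : Fin N} (hz : z ∈ B) (hgz : g z ∈ B) {w : Fin N}
    (hw : w ∈ B) : g w ∈ B := by
  have h := (isBlock_iff_smul_eq_or_disjoint.mp hB) ⟨g, hg⟩
  rcases h with h | h
  · rw [← h]
    exact ⟨w, hw, rfl⟩
  · exfalso
    rw [Set.disjoint_left] at h
    exact h ⟨z, hz, rfl⟩ hgz

theorem block_interval {m : ℕ} (h : m ∣ N) (hm : 3 ≤ m) {G : Subgroup (Perm (Fin N))}
    (hG : ∀ σ, lift h σ ∈ G) {B : Set (Fin N)} (hB : IsBlock G B) {x y : Fin N}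
    (hx : x ∈ B) (hy : y ∈ B) (hxy : (x : ℕ) % m ≠ y % m) {z : Fin N}
    (hz : (y : ℕ) / m = z / m) : z ∈ B := by
  have hpos : 0 < m := by omega
  have key : ∀ z : Fin N, (y : ℕ) / m = z / m → (z : ℕ) % m ≠ x % m → z ∈ B := by
    intro z hz hzx
    have := block_key hB (hG (swap ⟨y % m, Nat.mod_lt _ (pos_of_dvd' h)⟩
      ⟨z % m, Nat.mod_lt _ (pos_of_dvd' h)⟩)) (z := x) hx
      (by rw [lift_swap_fix h _ _ x hxy (Ne.symm hzx)]; exact hx) hy
    rwa [lift_swap_move h y z hz] at this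
  by_cases hzx : (z : ℕ) % m = x % m
  · -- choose a third residue
    obtain ⟨u, hu, hu1, hu2⟩ : ∃ u, u < m ∧ u ≠ x % m ∧ u ≠ y % m := by
      by_cases h0 : 0 ≠ (x : ℕ) % m ∧ 0 ≠ (y : ℕ) % m
      · exact ⟨0, hpos, h0.1, h0.2⟩
      by_cases h1 : 1 ≠ (x : ℕ) % m ∧ 1 ≠ (y : ℕ) % m
      · exact ⟨1, by omega, h1.1, h1.2⟩
      exact ⟨2, by omega, by omega, by omega⟩
    let w : Fin N := ⟨y / m * m + u, lift_lt h y.2 hu⟩
    have hw1 : (w : ℕ) / m = y / m := by
      show ((y : ℕ) / m * m + u) / m = _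
      rw [Nat.add_comm, Nat.add_mul_div_right _ _ hpos, Nat.div_eq_of_lt hu, Nat.zero_add]
    have hw2 : (w : ℕ) % m = u := by
      show ((y : ℕ) / m * m + u) % m = _
      rw [Nat.add_comm, Nat.add_mul_mod_self_right, Nat.mod_eq_of_lt hu]
    have hwB : w ∈ B := key w hw1.symm (by rw [hw2]; exact hu1)
    have := block_key hB (hG (swap ⟨y % m, Nat.mod_lt _ (pos_of_dvd' h)⟩
      ⟨z % m, Nat.mod_lt _ (pos_of_dvd' h)⟩)) (z := w) hwB
      (by rw [lift_swap_fix h _ _ w (by rw [hw2]; exact hu2)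
            (by rw [hw2]; simp only; rw [hzx]; exact hu1)]; exact hwB) hy
    rwa [lift_swap_move h y z hz] at this
  · exact key z hz hzx

theorem prim {a b : ℕ} (ha : a ∣ N) (hb : b ∣ N) (hab : ∀ n, a ∣ n → b ∣ n → N ∣ n)
    (ha3 : 3 ≤ a) (hb3 : 3 ≤ b) {G : Subgroup (Perm (Fin N))}
    (hGa : ∀ σ, lift ha σ ∈ G) (hGb : ∀ σ, lift hb σ ∈ G) :
    IsPreprimitive G (Fin N) := by
  have hN : 0 < N := Nat.pos_of_ne_zero (NeZero.ne N)
  have step : ∀ n, n + 1 < N → n / a = (n + 1) / a ∨ n / b = (n + 1) / b := by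
    intro n hn
    by_contra hcon
    push Not at hcon
    have h1 : a ∣ n + 1 := by
      by_contra h
      exact hcon.1 (Nat.succ_div_of_not_dvd h).symm
    have h2 : b ∣ n + 1 := by
      by_contra h
      exact hcon.2 (Nat.succ_div_of_not_dvd h).symm
    have := Nat.le_of_dvd (by omega) (hab _ h1 h2)
    omega
  have : IsPretransitive G (Fin N) := by
    have h0 : ∀ n (hn : n < N), ∃ g : G, g • (⟨0, hN⟩ : Fin N) = ⟨n, hn⟩ := by
      intro n
      induction n with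
      | zero => intro hn; exact ⟨1, one_smul _ _⟩
      | succ n ih =>
        intro hn
        obtain ⟨g, hg⟩ := ih (by omega)
        rcases step n hn with h | h
        · refine ⟨⟨_, hGa (swap ⟨n % a, Nat.mod_lt _ (pos_of_dvd' ha)⟩
            ⟨(n + 1) % a, Nat.mod_lt _ (pos_of_dvd' ha)⟩)⟩ * g, ?_⟩
          rw [mul_smul, hg]
          exact lift_swap_move ha ⟨n, by omega⟩ ⟨n + 1, hn⟩ h
        · refine ⟨⟨_, hGb (swap ⟨n % b, Nat.mod_lt _ (pos_of_dvd' hb)⟩
            ⟨(n + 1) % b, Nat.mod_lt _ (pos_of_dvd' hb)⟩)⟩ * g, ?_⟩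
          rw [mul_smul, hg]
          exact lift_swap_move hb ⟨n, by omega⟩ ⟨n + 1, hn⟩ h
    refine ⟨fun x y => ?_⟩
    obtain ⟨g, hg⟩ := h0 x x.2
    obtain ⟨g', hg'⟩ := h0 y y.2
    refine ⟨g' * g⁻¹, ?_⟩
    rw [mul_smul, inv_smul_eq_iff.mpr (show x = g • (⟨0, hN⟩ : Fin N) from hg.symm)]
    exact hg'
  refine ⟨fun {B} hB => ?_⟩
  by_cases hs : B.Subsingleton
  · exact Or.inl hs
  right
  have hne : ∃ x ∈ B, ∃ y ∈ B, x ≠ y := by
    unfold Set.Subsingleton at hs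
    push Not at hs
    obtain ⟨x, hx, y, hy, hxy⟩ := hs
    exact ⟨x, hx, y, hy, hxy⟩
  obtain ⟨x, hx, y, hy, hxy⟩ := hne
  -- from different residues mod one modulus to two consecutive elements
  have cons : ∀ (m : ℕ) (h : m ∣ N) (hm : 3 ≤ m) (hG : ∀ σ, lift h σ ∈ G),
      (∃ x ∈ B, ∃ y ∈ B, (x : ℕ) % m ≠ y % m) →
      ∃ n, ∃ hn : n + 1 < N, (⟨n, by omega⟩ : Fin N) ∈ B ∧ (⟨n + 1, hn⟩ : Fin N) ∈ B := by
    rintro m h hm hG ⟨x, hx, y, hy, hxy⟩
    have hm0 : 0 < m := by omega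
    have l0 : (y : ℕ) / m * m + 0 < N := lift_lt h y.2 hm0
    have l1 : (y : ℕ) / m * m + 1 < N := lift_lt h y.2 (by omega)
    refine ⟨(y : ℕ) / m * m + 0, l1, ?_, ?_⟩
    · refine block_interval h hm hG hB hx hy hxy ?_
      show (y : ℕ) / m = ((y : ℕ) / m * m + 0) / m
      rw [Nat.add_zero, Nat.mul_div_cancel _ hm0]
    · refine block_interval h hm hG hB hx hy hxy ?_
      show (y : ℕ) / m = ((y : ℕ) / m * m + 0 + 1) / m
      rw [Nat.add_zero, Nat.add_comm, Nat.add_mul_div_right _ _ hm0,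
        Nat.div_eq_of_lt (show 1 < m by omega), Nat.zero_add]
  have hcons : ∃ n, ∃ hn : n + 1 < N,
      (⟨n, by omega⟩ : Fin N) ∈ B ∧ (⟨n + 1, hn⟩ : Fin N) ∈ B := by
    by_cases h1 : (x : ℕ) % a = y % a
    · by_cases h2 : (x : ℕ) % b = y % b
      · exfalso
        apply hxy
        have hx' := x.2
        have hy' := y.2
        rcases le_total (x : ℕ) y with hle | hle
        · have d1 := (Nat.modEq_iff_dvd' hle).mp h1
          have d2 := (Nat.modEq_iff_dvd' hle).mp h2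
          have := hab _ d1 d2
          have := Nat.eq_zero_of_dvd_of_lt this (by omega)
          ext; omega
        · have d1 := (Nat.modEq_iff_dvd' hle).mp h1.symm
          have d2 := (Nat.modEq_iff_dvd' hle).mp h2.symm
          have := hab _ d1 d2
          have := Nat.eq_zero_of_dvd_of_lt this (by omega)
          ext; omega
      · exact cons b hb hb3 hGb ⟨x, hx, y, hy, h2⟩
    · exact cons a ha ha3 hGa ⟨x, hx, y, hy, h1⟩
  obtain ⟨n0, hn0, hB0, hB1⟩ := hcons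
  -- every element of B has its intervals in B
  have full : ∀ (m : ℕ) (h : m ∣ N) (hm : 3 ≤ m) (hG : ∀ σ, lift h σ ∈ G) (w z : Fin N),
      w ∈ B → (w : ℕ) / m = z / m → z ∈ B := by
    intro m h hm hG w z hw hwz
    have hne : n0 % m ≠ (n0 + 1) % m := by
      intro e
      have := (Nat.modEq_iff_dvd' (Nat.le_succ n0)).mp e
      rw [Nat.succ_eq_add_one, Nat.add_sub_cancel_left] at this
      have := Nat.le_of_dvd one_pos this
      omega
    by_cases h1 : n0 % m = (w : ℕ) % m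
    · exact block_interval h hm hG hB hB1 hw (by simp only; omega) hwz
    · exact block_interval h hm hG hB hB0 hw (by simp only; omega) hwz
  have up : ∀ n (hn : n + 1 < N), (⟨n, by omega⟩ : Fin N) ∈ B → (⟨n + 1, hn⟩ : Fin N) ∈ B := by
    intro n hn hB'
    rcases step n hn with h | h
    · exact full a ha ha3 hGa _ _ hB' h
    · exact full b hb hb3 hGb _ _ hB' h
  have down : ∀ n (hn : n + 1 < N), (⟨n + 1, hn⟩ : Fin N) ∈ B → (⟨n, by omega⟩ : Fin N) ∈ B := by
    intro n hn hB'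
    rcases step n hn with h | h
    · exact full a ha ha3 hGa _ _ hB' h.symm
    · exact full b hb hb3 hGb _ _ hB' h.symm
  have z0 : (⟨0, hN⟩ : Fin N) ∈ B := by
    have : ∀ n (hn : n < N), (⟨n, hn⟩ : Fin N) ∈ B → (⟨0, hN⟩ : Fin N) ∈ B := by
      intro n
      induction n with
      | zero => intro hn h; exact h
      | succ n ih => intro hn h; exact ih (by omega) (down n hn h)
    exact this n0 (by omega) hB0
  ext w
  simp only [Set.mem_univ, iff_true]
  have : ∀ n (hn : n < N), (⟨n, hn⟩ : Fin N) ∈ B := by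
    intro n
    induction n with
    | zero => intro hn; exact z0
    | succ n ih => intro hn; exact up n hn (ih (by omega))
  exact this w w.2

end Prim

section Three

theorem pai {α : Type*} (f : Perm α) (x : α) : f (f⁻¹ x) = x := f.apply_symm_apply x

theorem pia {α : Type*} (f : Perm α) (x : α) : f⁻¹ (f x) = x := f.symm_apply_apply x

theorem isThreeCycle_commutator {α : Type*} [Fintype α] [DecidableEq α] (f g : Perm α) (x : α)
    (h : ∀ y, f y ≠ y → g y ≠ y → y = x) (hf : f x ≠ x) (hg : g x ≠ x) :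
    IsThreeCycle (f * g * f⁻¹ * g⁻¹) := by
  have hfa : g (f x) = f x := by
    by_contra hcon
    exact hf (h (f x) (fun e => hf (f.injective e)) hcon)
  have hgb : f (g x) = g x := by
    by_contra hcon
    exact hg (h (g x) hcon (fun e => hg (g.injective e)))
  have hab : f x ≠ g x := by
    intro e
    rw [← e] at hgb
    exact hf (f.injective hgb)
  have hc : f * g * f⁻¹ * g⁻¹ = swap (f x) x * swap (f x) (g x) := by
    ext y
    simp only [mul_apply]
    by_cases h1 : y = x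
    · subst h1
      have e1 : f (g⁻¹ y) = g⁻¹ y := by
        by_contra hcon
        have hne : g⁻¹ y ≠ y := by
          intro e
          apply hg
          rw [inv_eq_iff_eq] at e
          exact e.symm
        have := h (g⁻¹ y) hcon (by rw [pai]; exact Ne.symm hne)
        exact hne this
      have e2 : f⁻¹ (g⁻¹ y) = g⁻¹ y := by rw [inv_eq_iff_eq]; exact e1.symm
      rw [e2, pai, swap_apply_of_ne_of_ne (Ne.symm hf) (Ne.symm hg), swap_apply_right]
    by_cases h2 : y = f x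
    · subst h2
      have e1 : g⁻¹ (f x) = f x := by rw [inv_eq_iff_eq]; exact hfa.symm
      rw [e1, pia, hgb, swap_apply_left, swap_apply_of_ne_of_ne (Ne.symm hab) hg]
    by_cases h3 : y = g x
    · subst h3
      have hne : f⁻¹ x ≠ x := by
        intro e
        rw [inv_eq_iff_eq] at e
        exact hf e.symm
      have e1 : g (f⁻¹ x) = f⁻¹ x := by
        by_contra hcon
        exact hne (h (f⁻¹ x) (by rw [pai]; exact Ne.symm hne) hcon)
      rw [pia, e1, pai, swap_apply_right, swap_apply_left]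
    rw [swap_apply_of_ne_of_ne h2 h3, swap_apply_of_ne_of_ne h2 h1]
    by_cases hgy : g y = y
    · have e1 : g⁻¹ y = y := by rw [inv_eq_iff_eq]; exact hgy.symm
      rw [e1]
      by_cases hfy : f y = y
      · have e2 : f⁻¹ y = y := by rw [inv_eq_iff_eq]; exact hfy.symm
        rw [e2, hgy, hfy]
      · have hne : f⁻¹ y ≠ x := by
          intro e
          rw [inv_eq_iff_eq] at e
          exact h2 e
        have e2 : g (f⁻¹ y) = f⁻¹ y := by
          by_contra hcon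
          apply hne
          apply h _ _ hcon
          rw [pai]
          intro e
          apply hfy
          rw [eq_comm, inv_eq_iff_eq] at e
          exact e.symm
        rw [e2, pai]
    · have hfy : f y = y := by
        by_contra hcon
        exact h1 (h y hcon hgy)
      have hne : g⁻¹ y ≠ x := by
        intro e
        rw [inv_eq_iff_eq] at e
        exact h3 e
      have e1 : f (g⁻¹ y) = g⁻¹ y := by
        by_contra hcon
        apply hne
        apply h _ hcon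
        rw [pai]
        intro e
        apply hgy
        rw [eq_comm, inv_eq_iff_eq] at e
        exact e.symm
      have e2 : f⁻¹ (g⁻¹ y) = g⁻¹ y := by rw [inv_eq_iff_eq]; exact e1.symm
      rw [e2, pai, hfy]
  rw [hc]
  exact isThreeCycle_swap_mul_swap_same hf hab (Ne.symm hg)

end Three

section Main

variable {N : ℕ} [NeZero N]

theorem adj_step {m : ℕ} (h : m ∣ N) (r : ℕ) (hr : r + 1 < m) (x : Fin N) :
    ((lift h (swap ⟨r, by omega⟩ ⟨r + 1, hr⟩) x : ℕ) = x + 1 ∧ (x : ℕ) % m = r) ∨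
    ((x : ℕ) = (lift h (swap ⟨r, by omega⟩ ⟨r + 1, hr⟩) x : ℕ) + 1 ∧ (x : ℕ) % m = r + 1) ∨
    ((lift h (swap ⟨r, by omega⟩ ⟨r + 1, hr⟩) x : ℕ) = x ∧ (x : ℕ) % m ≠ r ∧
      (x : ℕ) % m ≠ r + 1) := by
  have e := Nat.div_add_mod' (x : ℕ) m
  rw [lift_val]
  by_cases h1 : (x : ℕ) % m = r
  · left
    have : (⟨(x : ℕ) % m, Nat.mod_lt _ (pos_of_dvd' h)⟩ : Fin m) = ⟨r, by omega⟩ :=
      Fin.ext h1
    rw [this, swap_apply_left]
    simp only
    omega
  · right
    by_cases h2 : (x : ℕ) % m = r + 1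
    · left
      have : (⟨(x : ℕ) % m, Nat.mod_lt _ (pos_of_dvd' h)⟩ : Fin m) = ⟨r + 1, hr⟩ :=
        Fin.ext h2
      rw [this, swap_apply_right]
      simp only
      omega
    · right
      rw [swap_apply_of_ne_of_ne]
      · simp only
        omega
      · intro e'; exact h1 (congrArg Fin.val e')
      · intro e'; exact h2 (congrArg Fin.val e')

theorem succ_mod (n m : ℕ) (hm : 0 < m) :
    ((n + 1) % m = 0 ∧ n % m + 1 = m) ∨ ((n + 1) % m = n % m + 1 ∧ n % m + 1 < m) := by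
  have h1 := Nat.mod_lt n hm
  rcases Nat.lt_or_ge (n % m + 1) m with h | h
  · right
    refine ⟨?_, h⟩
    rw [Nat.add_mod, Nat.mod_eq_of_lt (show 1 < m by omega), Nat.mod_eq_of_lt h]
  · left
    have h2 : n % m + 1 = m := by omega
    refine ⟨?_, h2⟩
    rw [← Nat.mod_add_mod, h2, Nat.mod_self]

theorem step2 {a b : ℕ} (ha0 : 0 < a) (hb0 : 0 < b) {u v : ℕ} (h : v = u + 1) :
    ((v % a = 0 ∧ u % a + 1 = a) ∨ (v % a = u % a + 1 ∧ u % a + 1 < a)) ∧
    ((v % b = 0 ∧ u % b + 1 = b) ∨ (v % b = u % b + 1 ∧ u % b + 1 < b)) := by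
  subst h
  exact ⟨succ_mod u a ha0, succ_mod u b hb0⟩


/-- step relation: `u → v` under the transposition of the classes `r, r+1` modulo `a`. -/
def St (b r : ℕ) (u uA uB v vA vB : ℕ) : Prop :=
  (v = u + 1 ∧ uA = r ∧ vA = r + 1 ∧ (vB = 0 ∧ uB + 1 = b ∨ vB = uB + 1)) ∨
  (u = v + 1 ∧ uA = r + 1 ∧ vA = r ∧ (uB = 0 ∧ vB + 1 = b ∨ uB = vB + 1)) ∨
  (v = u ∧ uA ≠ r ∧ uA ≠ r + 1 ∧ vA = uA ∧ vB = uB)

theorem core (a b r t : ℕ) (hr : 0 < r) (ht : 0 < t) (hra : r + 3 ≤ a) (htb : t + 3 ≤ b)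
    (x0 A0 B0 x1 A1 B1 x2 A2 B2 x3 A3 B3 x4 A4 B4 : ℕ)
    (b0 : B0 < b) (b4 : B4 < b) (a0 : A0 < a) (a4 : A4 < a)
    (s1 : St a t x0 B0 A0 x1 B1 A1) (s2 : St b r x1 A1 B1 x2 A2 B2)
    (s3 : St a t x2 B2 A2 x3 B3 A3) (s4 : St b r x3 A3 B3 x4 A4 B4) (hne : x4 ≠ x0) :
    (A0 + 1 = r ∧ B0 = t) ∨ (A0 = r ∧ B0 = t + 1) ∨
    (A0 = r + 1 ∧ B0 = t + 2) ∨ (A0 = r ∧ B0 + 1 = t) ∨
    (A0 = r + 1 ∧ B0 = t) ∨ (A0 = r + 2 ∧ B0 = t + 1) := by
  unfold St at *
  rcases s1 with s1 | s1 | s1 <;> rcases s2 with s2 | s2 | s2 <;>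
  rcases s3 with s3 | s3 | s3 <;> rcases s4 with s4 | s4 | s4 <;>
  first
  | (exfalso; omega)
  | (left; omega)
  | (right; left; omega)
  | (right; right; left; omega)
  | (right; right; right; left; omega)
  | (right; right; right; right; left; omega)
  | (right; right; right; right; right; omega)

theorem core2 (a b r t : ℕ) (hr : 0 < r) (ht : 0 < t) (hra : r + 3 ≤ a) (htb : t + 3 ≤ b)
    (x0 A0 B0 x1 A1 B1 x2 A2 B2 x3 A3 B3 x4 A4 B4 : ℕ)
    (s1 : St a t x0 B0 A0 x1 B1 A1) (s2 : St b r x1 A1 B1 x2 A2 B2)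
    (s3 : St a t x2 B2 A2 x3 B3 A3) (s4 : St b r x3 A3 B3 x4 A4 B4)
    (h : (A0 = r + 2 ∧ B0 = t + 1) ∨ (A0 + 1 = r ∧ B0 = t)) : x4 ≠ x0 := by
  unfold St at *
  rcases h with h | h <;>
  rcases s1 with s1 | s1 | s1 <;> rcases s2 with s2 | s2 | s2 <;>
  rcases s3 with s3 | s3 | s3 <;> rcases s4 with s4 | s4 | s4 <;> omega

/-- One step of `τ_{r(a),r+1(a)}` seen modulo `a` and `b`. -/
theorem adj2 {a b : ℕ} (ha : a ∣ N) (hb0 : 0 < b) (r : ℕ) (hr : r + 1 < a) (x : Fin N) :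
    St b r x (x % a) (x % b) (lift ha (swap ⟨r, by omega⟩ ⟨r + 1, hr⟩) x)
      ((lift ha (swap ⟨r, by omega⟩ ⟨r + 1, hr⟩) x : ℕ) % a)
      ((lift ha (swap ⟨r, by omega⟩ ⟨r + 1, hr⟩) x : ℕ) % b) := by
  have ha0 := pos_of_dvd' ha
  have h := adj_step ha r hr x
  generalize lift ha (swap ⟨r, by omega⟩ ⟨r + 1, hr⟩) x = y at h ⊢
  unfold St
  rcases h with ⟨h1, h2⟩ | ⟨h1, h2⟩ | ⟨h1, h2, h3⟩
  · left
    have := step2 ha0 hb0 h1
    refine ⟨h1, h2, ?_, ?_⟩ <;> omega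
  · right; left
    have := step2 ha0 hb0 h1
    refine ⟨h1, h2, ?_, ?_⟩ <;> omega
  · right; right
    refine ⟨h1, h2, h3, ?_, ?_⟩ <;> rw [h1]

/-- the element `c = g h g h` -/
def cc {a b : ℕ} (ha : a ∣ N) (hb : b ∣ N) (r t : ℕ) (hra : r + 3 ≤ a) (htb : t + 3 ≤ b) :
    Perm (Fin N) :=
  lift ha (swap ⟨r, by omega⟩ ⟨r + 1, by omega⟩) * lift hb (swap ⟨t, by omega⟩ ⟨t + 1, by omega⟩) *
  lift ha (swap ⟨r, by omega⟩ ⟨r + 1, by omega⟩) * lift hb (swap ⟨t, by omega⟩ ⟨t + 1, by omega⟩)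

theorem cc_supp {a b : ℕ} (ha : a ∣ N) (hb : b ∣ N) (r t : ℕ) (hr : 0 < r) (ht : 0 < t)
    (hra : r + 3 ≤ a) (htb : t + 3 ≤ b) (x : Fin N) (hx : cc ha hb r t hra htb x ≠ x) :
    ((x : ℕ) % a + 1 = r ∧ (x : ℕ) % b = t) ∨ ((x : ℕ) % a = r ∧ (x : ℕ) % b = t + 1) ∨
    ((x : ℕ) % a = r + 1 ∧ (x : ℕ) % b = t + 2) ∨ ((x : ℕ) % a = r ∧ (x : ℕ) % b + 1 = t) ∨
    ((x : ℕ) % a = r + 1 ∧ (x : ℕ) % b = t) ∨ ((x : ℕ) % a = r + 2 ∧ (x : ℕ) % b = t + 1) := by
  have ha0 : 0 < a := by omega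
  have hb0 : 0 < b := by omega
  unfold cc at hx
  simp only [mul_apply] at hx
  refine core a b r t hr ht hra htb _ _ _ _ _ _ _ _ _ _ _ _ _ _ _ (Nat.mod_lt _ hb0)
    (Nat.mod_lt _ hb0) (Nat.mod_lt _ ha0) (Nat.mod_lt _ ha0) (adj2 hb ha0 t (by omega) x)
    (adj2 ha hb0 r (by omega) _) (adj2 hb ha0 t (by omega) _) (adj2 ha hb0 r (by omega) _) ?_
  exact fun e => hx (Fin.ext e)

theorem cc_ne {a b : ℕ} (ha : a ∣ N) (hb : b ∣ N) (r t : ℕ) (hr : 0 < r) (ht : 0 < t)
    (hra : r + 3 ≤ a) (htb : t + 3 ≤ b) (x : Fin N)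
    (h : ((x : ℕ) % a = r + 2 ∧ (x : ℕ) % b = t + 1) ∨ ((x : ℕ) % a + 1 = r ∧ (x : ℕ) % b = t)) :
    cc ha hb r t hra htb x ≠ x := by
  have ha0 : 0 < a := by omega
  have hb0 : 0 < b := by omega
  unfold cc
  simp only [mul_apply]
  have := core2 a b r t hr ht hra htb _ _ _ _ _ _ _ _ _ _ _ _ _ _ _ (adj2 hb ha0 t (by omega) x)
    (adj2 ha hb0 r (by omega) _) (adj2 hb ha0 t (by omega) _) (adj2 ha hb0 r (by omega) _) h
  exact fun e => this (congrArg Fin.val e)

theorem three_coprime {a b : ℕ} (ha : a ∣ N) (hb : b ∣ N) (hab : ∀ n, a ∣ n → b ∣ n → N ∣ n)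
    (hco : Nat.Coprime a b) (ha7 : 7 ≤ a) (hb5 : 5 ≤ b) {G : Subgroup (Perm (Fin N))}
    (hGa : ∀ σ, lift ha σ ∈ G) (hGb : ∀ σ, lift hb σ ∈ G) :
    ∃ g ∈ G, IsThreeCycle g := by
  have hN : 0 < N := Nat.pos_of_ne_zero (NeZero.ne N)
  obtain ⟨k, hk1, hk2⟩ := Nat.chineseRemainder hco 3 2
  let x : Fin N := ⟨k % N, Nat.mod_lt _ hN⟩
  have hxa : (x : ℕ) % a = 3 := by
    show k % N % a = 3
    rw [Nat.mod_mod_of_dvd _ ha, hk1, Nat.mod_eq_of_lt (by omega)]
  have hxb : (x : ℕ) % b = 2 := by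
    show k % N % b = 2
    rw [Nat.mod_mod_of_dvd _ hb, hk2, Nat.mod_eq_of_lt (by omega)]
  have hmem : ∀ r t (hra : r + 3 ≤ a) (htb : t + 3 ≤ b), cc ha hb r t hra htb ∈ G := by
    intro r t hra htb
    exact G.mul_mem (G.mul_mem (G.mul_mem (hGa _) (hGb _)) (hGa _)) (hGb _)
  refine ⟨_, ?_, isThreeCycle_commutator (cc ha hb 1 1 (by omega) (by omega))
    (cc ha hb 4 2 (by omega) (by omega)) x ?_ ?_ ?_⟩
  · exact G.mul_mem (G.mul_mem (G.mul_mem (hmem _ _ _ _) (hmem _ _ _ _))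
      (G.inv_mem (hmem _ _ _ _))) (G.inv_mem (hmem _ _ _ _))
  · intro y h1 h2
    have s1 := cc_supp ha hb 1 1 (by omega) (by omega) _ _ y h1
    have s2 := cc_supp ha hb 4 2 (by omega) (by omega) _ _ y h2
    have hy : (y : ℕ) % a = 3 ∧ (y : ℕ) % b = 2 := by omega
    have h1 : (y : ℕ) % a = x % a := by rw [hy.1, hxa]
    have h2 : (y : ℕ) % b = x % b := by rw [hy.2, hxb]
    have hx' := x.2
    have hy' := y.2
    ext
    rcases le_total (y : ℕ) x with hle | hle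
    · have d1 := (Nat.modEq_iff_dvd' hle).mp h1
      have d2 := (Nat.modEq_iff_dvd' hle).mp h2
      have := hab _ d1 d2
      have := Nat.eq_zero_of_dvd_of_lt this (by omega)
      omega
    · have d1 := (Nat.modEq_iff_dvd' hle).mp h1.symm
      have d2 := (Nat.modEq_iff_dvd' hle).mp h2.symm
      have := hab _ d1 d2
      have := Nat.eq_zero_of_dvd_of_lt this (by omega)
      omega
  · exact cc_ne ha hb 1 1 (by omega) (by omega) _ _ x (by omega)
  · exact cc_ne ha hb 4 2 (by omega) (by omega) _ _ x (by omega)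

theorem moved {m : ℕ} (h : m ∣ N) (r s : Fin m) (x : Fin N)
    (hx : lift h (swap r s) x ≠ x) : (x : ℕ) % m = r ∨ (x : ℕ) % m = s := by
  by_contra hcon
  push Not at hcon
  exact hx (lift_swap_fix h r s x hcon.1 hcon.2)

theorem three_gcd {a b d : ℕ} (ha : a ∣ N) (hb : b ∣ N) (hab : ∀ n, a ∣ n → b ∣ n → N ∣ n)
    (hd : 3 ≤ d) (hda : d ∣ a) (hdb : d ∣ b) {G : Subgroup (Perm (Fin N))}
    (hGa : ∀ σ, lift ha σ ∈ G) (hGb : ∀ σ, lift hb σ ∈ G) :
    ∃ g ∈ G, IsThreeCycle g := by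
  have hN : 0 < N := Nat.pos_of_ne_zero (NeZero.ne N)
  have ha0 := pos_of_dvd' ha
  have hb0 := pos_of_dvd' hb
  have ha3 : 3 ≤ a := le_trans hd (Nat.le_of_dvd ha0 hda)
  have hb3 : 3 ≤ b := le_trans hd (Nat.le_of_dvd hb0 hdb)
  let x : Fin N := ⟨0, hN⟩
  refine ⟨_, ?_, isThreeCycle_commutator (lift ha (swap ⟨0, ha0⟩ ⟨1, by omega⟩))
    (lift hb (swap ⟨0, hb0⟩ ⟨2, by omega⟩)) x ?_ ?_ ?_⟩
  · exact G.mul_mem (G.mul_mem (G.mul_mem (hGa _) (hGb _)) (G.inv_mem (hGa _)))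
      (G.inv_mem (hGb _))
  · intro y h1 h2
    have s1 := moved ha _ _ y h1
    have s2 := moved hb _ _ y h2
    simp only at s1 s2
    have e1 : (y : ℕ) % a % d = y % d := Nat.mod_mod_of_dvd _ hda
    have e2 : (y : ℕ) % b % d = y % d := Nat.mod_mod_of_dvd _ hdb
    have f1 : 1 % d = 1 := Nat.mod_eq_of_lt (by omega)
    have f2 : 2 % d = 2 := Nat.mod_eq_of_lt (by omega)
    have f0 : 0 % d = 0 := Nat.zero_mod d
    have h0 : (y : ℕ) % a = 0 ∧ (y : ℕ) % b = 0 := by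
      rcases s1 with s1 | s1 <;> rcases s2 with s2 | s2 <;> rw [s1] at e1 <;> rw [s2] at e2 <;>
        omega
    have := hab y (Nat.dvd_of_mod_eq_zero h0.1) (Nat.dvd_of_mod_eq_zero h0.2)
    have := Nat.eq_zero_of_dvd_of_lt this y.2
    exact Fin.ext this
  · intro e
    have := congrArg Fin.val e
    rw [lift_val] at this
    simp [x] at this
  · intro e
    have := congrArg Fin.val e
    rw [lift_val] at this
    simp [x] at this

theorem sign_lift {m : ℕ} (h : m ∣ N) (σ : Perm (Fin m)) : sign (lift h σ) = sign σ ^ (N / m) := by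
  have hm := pos_of_dvd' h
  obtain ⟨d, hd⟩ := id h
  subst hd
  rw [Nat.mul_div_cancel_left _ hm]
  let e : Fin d × Fin m ≃ Fin (m * d) := finProdFinEquiv.trans (finCongr (Nat.mul_comm d m))
  have he : ∀ p : Fin d × Fin m, (e p : ℕ) = p.2 + m * p.1 := fun p => rfl
  have : lift h σ = e.permCongr (Equiv.prodCongrRight fun _ => σ) := by
    ext x
    obtain ⟨⟨i, j⟩, rfl⟩ := e.surjective x
    rw [lift_val, permCongr_apply, symm_apply_apply]
    rw [he]
    simp only [he]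
    have e1 : ((j : ℕ) + m * i) / m = i := by
      rw [Nat.add_mul_div_left _ _ hm, Nat.div_eq_of_lt j.2, Nat.zero_add]
    have e2 : ((j : ℕ) + m * i) % m = j := by
      rw [Nat.add_mul_mod_self_left, Nat.mod_eq_of_lt j.2]
    simp only [e1, e2]
    show (i : ℕ) * m + (σ j : ℕ) = (σ j : ℕ) + m * i
    ring
  rw [this, sign_permCongr, sign_prodCongrRight]
  simp

theorem main_step {a b m : ℕ} (ha : a ∣ N) (hb : b ∣ N) (hm : m ∣ N)
    (hab : ∀ n, a ∣ n → b ∣ n → N ∣ n)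
    (ha3 : 3 ≤ a) (hb3 : 3 ≤ b) (hm2 : 2 ≤ m) (hodd : Odd (N / m)) {G : Subgroup (Perm (Fin N))}
    (hGa : ∀ σ, lift ha σ ∈ G) (hGb : ∀ σ, lift hb σ ∈ G) (hGm : ∀ σ, lift hm σ ∈ G)
    (h3 : ∃ g ∈ G, IsThreeCycle g) : G = ⊤ := by
  obtain ⟨g, hg, hg3⟩ := h3
  have hA := alternatingGroup_le_of_isPreprimitive_of_isThreeCycle_mem
    (prim ha hb hab ha3 hb3 hGa hGb) hg3 hg
  rw [eq_top_iff]
  intro σ _
  let π : Perm (Fin N) := lift hm (swap ⟨0, by omega⟩ ⟨1, by omega⟩)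
  have hπ : sign π = -1 := by
    rw [sign_lift, sign_swap, hodd.neg_one_pow]
    simp
  have hπG : π ∈ G := hGm _
  rcases Int.units_eq_one_or (sign σ) with h | h
  · exact hA (mem_alternatingGroup.mpr h)
  · have : σ * π ∈ G := hA (mem_alternatingGroup.mpr (by rw [Equiv.Perm.sign_mul, h, hπ]; simp))
    have h2 := G.mul_mem this (G.inv_mem hπG)
    rwa [mul_inv_cancel_right] at h2

end Main

section Final

theorem dvd_L {m k : ℕ} (h2 : 2 ≤ m) (hk : m ≤ k) : m ∣ L k :=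
  Finset.dvd_lcm (f := id) (Finset.mem_Icc.mpr ⟨h2, hk⟩)

theorem L_dvd {k n : ℕ} (h : ∀ m, 2 ≤ m → m ≤ k → m ∣ n) : L k ∣ n :=
  Finset.lcm_dvd fun m hm => h m (Finset.mem_Icc.mp hm).1 (Finset.mem_Icc.mp hm).2

theorem L_ne_zero (k : ℕ) : L k ≠ 0 := by
  intro h
  have : L k ∣ k.factorial := L_dvd fun m h2 hk => Nat.dvd_factorial (by omega) hk
  rw [h, zero_dvd_iff] at this
  exact Nat.factorial_ne_zero k this

theorem CTle_mono {k l : ℕ} (h : k ≤ l) : CTle k ≤ CTle l :=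
  Subgroup.closure_mono fun _ ⟨m, h1, h2, h3⟩ => ⟨m, h1, h2.trans h, h3⟩

theorem CT_le_CTle {m k : ℕ} (h2 : 2 ≤ m) (hk : m ≤ k) : CT m ≤ CTle k :=
  fun _ h => Subgroup.subset_closure ⟨m, h2, hk, h⟩

theorem Phi_mem {m k : ℕ} [NeZero m] (h2 : 2 ≤ m) (hk : m ≤ k) (σ : Perm (Fin m)) :
    Phi m σ ∈ CTle k :=
  CT_le_CTle h2 hk (by rw [CT_eq]; exact ⟨σ, rfl⟩)

theorem swap67 : (lift (N := 12) (m := 4) (by norm_num) (swap 0 1) *
    lift (N := 12) (m := 3) (by norm_num) (swap 0 1)) ^ 3 = swap (6 : Fin 12) 7 := by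
  decide

theorem base12 : (Phi 12).range ≤ CTle 4 := by
  have h3 : 3 ∣ 12 := by norm_num
  have h4 : 4 ∣ 12 := by norm_num
  have e3 : ∀ σ, lift h3 σ ∈ (CTle 4).comap (Phi 12) := fun σ => by
    rw [Subgroup.mem_comap, Phi_lift]
    exact Phi_mem (by norm_num) (by norm_num) σ
  have e4 : ∀ σ, lift h4 σ ∈ (CTle 4).comap (Phi 12) := fun σ => by
    rw [Subgroup.mem_comap, Phi_lift]
    exact Phi_mem (by norm_num) (by norm_num) σ
  have hp := prim (G := (CTle 4).comap (Phi 12)) h3 h4 (fun n h h' => by omega) (by norm_num)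
    (by norm_num) e3 e4
  have hsw : IsSwap ((lift h4 (swap 0 1) * lift h3 (swap 0 1)) ^ 3) :=
    ⟨6, 7, by decide, swap67⟩
  have htop := subgroup_eq_top_of_isPreprimitive_of_isSwap_mem hp _ hsw
    (Subgroup.pow_mem _ (Subgroup.mul_mem _ (e4 _) (e3 _)) 3)
  rintro _ ⟨σ, rfl⟩
  have : σ ∈ (CTle 4).comap (Phi 12) := by rw [htop]; trivial
  exact this

theorem base (n : ℕ) [NeZero n] (hn : n = L 4) : (Phi n).range ≤ CTle 4 := by
  have h12 : L 4 = 12 := by decide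
  rw [h12] at hn
  subst hn
  exact base12

theorem exists_odd (k : ℕ) (hk : 4 ≤ k) : ∃ m, 2 ≤ m ∧ m ≤ k ∧ m ∣ L k ∧ Odd (L k / m) := by
  induction k, hk using Nat.le_induction with
  | base =>
    refine ⟨4, by norm_num, le_rfl, by decide, ?_⟩
    have : L 4 / 4 = 3 := by decide
    rw [this]
    decide
  | succ k hk ih =>
    obtain ⟨m, h2, hm, hdvd, hodd⟩ := ih
    have hLL : L k ∣ L (k + 1) := L_dvd fun m h2 h => dvd_L h2 (by omega)
    have hq : k + 1 ∣ L (k + 1) := dvd_L (by omega) le_rfl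
    obtain ⟨u, hu⟩ := hLL
    obtain ⟨v, hv⟩ := id hdvd
    obtain ⟨w, hw⟩ := hq
    have hN := Nat.pos_of_ne_zero (L_ne_zero (k + 1))
    have hm0 : 0 < m := by omega
    rcases Nat.even_or_odd u with he | ho
    · refine ⟨k + 1, by omega, le_rfl, ⟨w, hw⟩, ?_⟩
      rw [hw, Nat.mul_div_cancel_left _ (by omega)]
      by_contra hne
      rw [Nat.not_odd_iff_even] at hne
      obtain ⟨u', rfl⟩ := he
      obtain ⟨w', rfl⟩ := hne
      have e1 : L k * u' = (k + 1) * w' := by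
        have : L k * (u' + u') = (k + 1) * (w' + w') := by rw [← hu, ← hw]
        rw [Nat.mul_add, Nat.mul_add] at this
        omega
      have : L (k + 1) ∣ L k * u' := by
        apply L_dvd
        intro j hj2 hj
        by_cases h : j ≤ k
        · exact Dvd.dvd.mul_right (dvd_L hj2 h) _
        · have : j = k + 1 := by omega
          subst this
          exact ⟨w', e1⟩
      have hle := Nat.le_of_dvd (Nat.pos_of_ne_zero (by
        intro h0
        rw [Nat.mul_add] at hu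
        omega)) this
      rw [Nat.mul_add] at hu
      omega
    · refine ⟨m, h2, by omega, dvd_trans hdvd ⟨u, hu⟩, ?_⟩
      rw [hu, hv, Nat.mul_assoc, Nat.mul_div_cancel_left _ hm0]
      rw [hv, Nat.mul_div_cancel_left _ hm0] at hodd
      exact hodd.mul ho

theorem induct (k : ℕ) (hk : 4 ≤ k) : ∀ (n : ℕ) [NeZero n], n = L k → (Phi n).range ≤ CTle k := by
  induction k, hk using Nat.le_induction with
  | base => exact fun n _ hn => base n hn
  | succ k hk ih =>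
    intro n _ hn
    by_cases hdiv : k + 1 ∣ L k
    · have : L (k + 1) = L k := by
        apply Nat.dvd_antisymm
        · apply L_dvd
          intro j hj2 hj
          by_cases h : j ≤ k
          · exact dvd_L hj2 h
          · have : j = k + 1 := by omega
            subst this
            exact hdiv
        · exact L_dvd fun m h2 h => dvd_L h2 (by omega)
      exact (ih n (hn.trans this)).trans (CTle_mono (Nat.le_succ k))
    · subst hn
      have iL : NeZero (L k) := ⟨L_ne_zero k⟩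
      have iq : NeZero (k + 1) := ⟨by omega⟩
      have ha : L k ∣ L (k + 1) := L_dvd fun m h2 h => dvd_L h2 (by omega)
      have hb : k + 1 ∣ L (k + 1) := dvd_L (by omega) le_rfl
      have hab : ∀ n, L k ∣ n → k + 1 ∣ n → L (k + 1) ∣ n := by
        intro n h1 h2
        apply L_dvd
        intro j hj2 hj
        by_cases h : j ≤ k
        · exact (dvd_L hj2 h).trans h1
        · have : j = k + 1 := by omega
          subst this
          exact h2
      obtain ⟨m, hm2, hmk, hm, hodd⟩ := exists_odd (k + 1) (by omega)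
      have im : NeZero m := ⟨by omega⟩
      have h12 : 12 ∣ L k := by
        have e3 : 3 ∣ L k := dvd_L (by omega) (by omega)
        have e4 : 4 ∣ L k := dvd_L (by omega) (by omega)
        omega
      have hL12 : 12 ≤ L k := Nat.le_of_dvd (Nat.pos_of_ne_zero (L_ne_zero k)) h12
      have eA : ∀ σ, lift ha σ ∈ (CTle (k + 1)).comap (Phi (L (k + 1))) := fun σ => by
        rw [Subgroup.mem_comap, Phi_lift]
        exact CTle_mono (Nat.le_succ k) (ih (L k) rfl ⟨σ, rfl⟩)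
      have eB : ∀ σ, lift hb σ ∈ (CTle (k + 1)).comap (Phi (L (k + 1))) := fun σ => by
        rw [Subgroup.mem_comap, Phi_lift]
        exact Phi_mem (by omega) le_rfl σ
      have eM : ∀ σ, lift hm σ ∈ (CTle (k + 1)).comap (Phi (L (k + 1))) := fun σ => by
        rw [Subgroup.mem_comap, Phi_lift]
        exact Phi_mem hm2 hmk σ
      have h3 : ∃ g ∈ (CTle (k + 1)).comap (Phi (L (k + 1))), IsThreeCycle g := by
        by_cases hp : (k + 1).Prime
        · exact three_coprime ha hb hab ((hp.coprime_iff_not_dvd.mpr hdiv).symm) (by omega)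
            (by omega) eA eB
        · have h1 : (k + 1).minFac * ((k + 1) / (k + 1).minFac) = k + 1 :=
            Nat.mul_div_cancel' (Nat.minFac_dvd _)
          have h2 : 2 ≤ (k + 1).minFac := (Nat.minFac_prime (by omega)).two_le
          have h3 : (k + 1).minFac ^ 2 ≤ k + 1 := Nat.minFac_sq_le_self (by omega) hp
          set p := (k + 1).minFac
          set d := (k + 1) / p
          have hpd : p ≤ d := by
            rw [pow_two] at h3
            have : p * p ≤ p * d := by rw [h1]; exact h3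
            exact Nat.le_of_mul_le_mul_left this (by omega)
          have hd3 : 3 ≤ d := by
            by_contra hcon
            have : d ≤ 2 := by omega
            have : p * d ≤ 2 * 2 := Nat.mul_le_mul (by omega) this
            omega
          have hdk : d ≤ k := by
            have : 2 * d ≤ p * d := Nat.mul_le_mul_right d h2
            omega
          exact three_gcd ha hb hab hd3 (dvd_L (by omega) hdk) ⟨p, by rw [Nat.mul_comm]; exact h1.symm⟩
            eA eB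
      have htop := main_step ha hb hm hab (by omega) (by omega) hm2 hodd eA eB eM h3
      rintro _ ⟨σ, rfl⟩
      have : σ ∈ (CTle (k + 1)).comap (Phi (L (k + 1))) := by rw [htop]; trivial
      exact this

/-- **Main result.** The horizontal class transpositions `τ_{r(m),s(m)}`, `0 ≤ r < s < m`, are
well defined, and for every `k > 3` the group `CT_(k) = ⟨CT_2, ..., CT_k⟩` equals `CT_N` and is
isomorphic to the symmetric group `S_N`, where `N = lcm(2, 3, ..., k)`. -/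
theorem result :
    (∀ m r s : ℕ, r < s → s < m → ∃! σ : Equiv.Perm ℤ, IsTau m r s σ) ∧
    ∀ k : ℕ, 3 < k → CTle k = CT (L k) ∧ Nonempty (CTle k ≃* Equiv.Perm (Fin (L k))) := by
  refine ⟨fun m r s h1 h2 => ?_, fun k hk => ?_⟩
  · have : NeZero m := ⟨by omega⟩
    exact ⟨_, isTau_Phi m ⟨r, by omega⟩ ⟨s, h2⟩, fun τ h => isTau_unique h (isTau_Phi m _ _)⟩
  · have iL : NeZero (L k) := ⟨L_ne_zero k⟩
    have h : CTle k = (Phi (L k)).range := by
      apply le_antisymm _ (induct k hk (L k) rfl)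
      rw [CTle, Subgroup.closure_le]
      rintro σ ⟨m, h2, hm, hσ⟩
      have im : NeZero m := ⟨by omega⟩
      rw [CT_eq] at hσ
      exact range_le (dvd_L h2 hm) hσ
    refine ⟨by rw [h, CT_eq], ⟨?_⟩⟩
    exact (MulEquiv.subgroupCongr h).trans (MonoidHom.ofInjective (Phi_injective (L k))).symm

end Final

end Pool.Agent.Results.MP_8fd2f5_al.SymmetricGroup
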